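import Mathlib
import Pool.Agent.W5h65.LH.F9
import Pool.Agent.W5h65.SM.P6

/-!
# A tube domain for `F_M`, unconditionally and from moments of order `2m`: the tube domain reaches
the point `(1/2, …, 1/2; 1)` if and only if the Lindelöf hypothesis holds on average
-/

set_option autoImplicit false

namespace Pool.Agent.Results.MP_fed7ff_nt.LindelofOnAverage

open Pool.Agent.W5h65

/-- positive fundamental discriminants (`1` included) -/
def IsFund (d : ℕ) : Prop := (d % 4 = 1 ∧ Squarefree d) ∨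
  ∃ m, d = 4 * m ∧ Squarefree m ∧ (m % 4 = 2 ∨ m % 4 = 3)

/-- the Kronecker symbol `χ_d(n) = (d | n)`, for a positive fundamental discriminant `d` and
`n ≥ 1`: it is `(n | d)` if `d` is odd (then `d ≡ 1 mod 4`); if `d` is even, it is the Jacobi symbol
`(d | n)` for odd `n` and `0` for even `n` -/
def chi (d n : ℕ) : ℤ :=
  if Odd d then jacobiSym n d else if Odd n then jacobiSym d n else 0

/-- the Dirichlet series of `L(s, χ_d)` (used for `Re s > 1`) -/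
noncomputable def L (d : ℕ) (s : ℂ) : ℂ := ∑' n : ℕ, ((chi d n : ℤ) : ℂ) * (n : ℂ) ^ (-s)

/-- the multiple Dirichlet series `A_M(s_1, …, s_k; w)` -/
noncomputable def A {k : ℕ} (M : ℕ) (s : Fin k → ℂ) (w : ℂ) : ℂ :=
  open Classical in ∑' d : ℕ, if IsFund d then
    ((chi d M : ℤ) : ℂ) * (d : ℂ) ^ (-w) * ∏ j, L d (s j) else 0

/-- `σ_J(w) = w - |J|/2 + ∑_{j ∈ J} s_j`, at the point `z = (s, w)` -/
noncomputable def sigma {k : ℕ} (J : Finset (Fin k)) (z : (Fin k → ℂ) × ℂ) : ℂ :=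
  z.2 - (J.card : ℂ) / 2 + ∑ j ∈ J, z.1 j

/-- the function `F_M` -/
noncomputable def F {k : ℕ} (M : ℕ) (z : (Fin k → ℂ) × ℂ) : ℂ :=
  (A M z.1 z.2 - ∏ j, riemannZeta (z.1 j)) * ∏ J : Finset (Fin k), (sigma J z - 1)

/-- `(w - 1) (A_M - ζ(s_1) ⋯ ζ(s_k))`, that is `F_M` with the factor of `J = ∅` only -/
noncomputable def F₀ {k : ℕ} (M : ℕ) (z : (Fin k → ℂ) × ℂ) : ℂ :=
  (z.2 - 1) * (A M z.1 z.2 - ∏ j, riemannZeta (z.1 j))

/-- real parts of the coordinates -/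
def Re {k : ℕ} (z : (Fin k → ℂ) × ℂ) : (Fin k → ℝ) × ℝ := (fun i => (z.1 i).re, z.2.re)

/-- imaginary parts of the coordinates -/
def Im {k : ℕ} (z : (Fin k → ℂ) × ℂ) : (Fin k → ℝ) × ℝ := (fun i => (z.1 i).im, z.2.im)

/-- the function `f`, considered on the region where all coordinates have real part `> 1`, extends
holomorphically to the tube domain over `U`, with polynomial bounds in vertical strips -/
def Extends {k : ℕ} (f : (Fin k → ℂ) × ℂ → ℂ) (U : Set ((Fin k → ℝ) × ℝ)) : Prop :=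
  IsOpen U ∧ IsConnected U ∧ (∀ p : (Fin k → ℝ) × ℝ, (∀ i, 1 < p.1 i) → 1 < p.2 → p ∈ U) ∧
  ∃ G : (Fin k → ℂ) × ℂ → ℂ, DifferentiableOn ℂ G {z | Re z ∈ U} ∧
    (∀ z : (Fin k → ℂ) × ℂ, (∀ i, 1 < (z.1 i).re) → 1 < z.2.re → G z = f z) ∧
    ∀ K ⊆ U, IsCompact K → ∃ (C : ℝ) (N : ℕ), ∀ z : (Fin k → ℂ) × ℂ, Re z ∈ K →
      ‖G z‖ ≤ C * (1 + ‖Im z‖) ^ N

/-- `F_M` extends, with polynomial bounds in vertical strips, to some tube domain whose closure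
contains the point `(1/2, …, 1/2; 1)` -/
def Reaches (k M : ℕ) : Prop := ∃ U : Set ((Fin k → ℝ) × ℝ), Extends (F (k := k) M) U ∧
  ((fun _ => 1 / 2, 1) : (Fin k → ℝ) × ℝ) ∈ closure U

/-- the explicit domain `Ω_{k,m}`: all `(σ_1, …, σ_k; ω)` with `ω > 1/2` and, for
`τ = min(1, 2ω - 1)`, `σ_i > 1 - τ/2` for all `i` and `2 ∑_i max(0, 1 - σ_i) < m (τ + 2ω - 1)` -/
def Omega (k m : ℕ) : Set ((Fin k → ℝ) × ℝ) :=
  {p | 1 / 2 < p.2 ∧ (∀ i, 1 - min 1 (2 * p.2 - 1) / 2 < p.1 i) ∧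
    2 * ∑ i, max 0 (1 - p.1 i) < m * (min 1 (2 * p.2 - 1) + (2 * p.2 - 1))}

/-- `f` is the function `L(s, χ_d)` on the half plane `Re s > 1/2`: the analytic continuation of
its Dirichlet series -/
def IsL (d : ℕ) (f : ℂ → ℂ) : Prop :=
  DifferentiableOn ℂ f {s : ℂ | 1 / 2 < s.re} ∧ ∀ s : ℂ, 1 < s.re → f s = L d s

open Classical in
/-- Lindelöf on average: the upper bound `X^{1+ε}` for the `2m`-th moment of the `L(s, χ_d)`,
`1 < d ≤ X`, polynomially in `s`, on every closed half plane to the right of `Re s = 1/2` -/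
def MomentBound (Λ : ℕ → ℂ → ℂ) (m : ℕ) : Prop := ∀ ε B : ℝ, 0 < ε → ∃ (C : ℝ) (A : ℕ),
  ∀ (X : ℕ) (s : ℂ), 1 ≤ X → 1 / 2 + ε ≤ s.re → s.re ≤ B →
  ∑ d ∈ (Finset.Icc 2 X).filter IsFund, ‖Λ d s‖ ^ (2 * m) ≤
    C * (1 + ‖s‖) ^ A * (X : ℝ) ^ (1 + ε)

/-- the Lindelöf hypothesis for the `L(s, χ_d)` in the conductor aspect, polynomially in `s` -/
def Lindelof (Λ : ℕ → ℂ → ℂ) : Prop := ∀ ε B : ℝ, 0 < ε → ∃ (C : ℝ) (A : ℕ),
  ∀ (d : ℕ) (s : ℂ), IsFund d → 1 < d → 1 / 2 + ε ≤ s.re → s.re ≤ B →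
    ‖Λ d s‖ ≤ C * (1 + ‖s‖) ^ A * (d : ℝ) ^ ε

lemma Omega_eq (k m : ℕ) : Omega k m = LH.Omega k (2 * m) := by
  ext p
  constructor
  · rintro ⟨h1, h2, h3⟩
    refine ⟨h1, h2, ?_⟩
    push_cast
    linarith
  · rintro ⟨h1, h2, h3⟩
    refine ⟨h1, h2, ?_⟩
    push_cast at h3
    linarith

lemma ext_of_mom (m : ℕ) (hm : 1 ≤ m) (h : LH.Mom m) (k M : ℕ) (hM : 1 ≤ M) :
    Extends (F (k := k) M) (Omega k m) ∧ Extends (F₀ (k := k) M) (Omega k m) := by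
  have hS := LH.hull_good k (2 * m) M hM (by omega) (LH.momN_of m h)
  have hq : 1 ≤ 2 * m := by omega
  have hsub : MD.tube (LH.Omega k (2 * m)) ⊆
      MD.tube (LH.Ab (convexHull ℝ (LH.Corners k (2 * m)))) :=
    fun z hz => LH.Omega_sub k (2 * m) hq hz
  rw [Omega_eq]
  refine ⟨⟨LH.Omega_open k _, LH.Omega_connected k _ hq,
    fun p h1 h2 => LH.Omega_right k _ hq p h1 (by linarith),
    MD.Fx M MD.PJ, (LH.Fx_diff k M hM _ hS _ MD.PJ_diff).mono hsub, fun z h1 h2 => ?_,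
    fun K hK hK2 => ?_⟩, ⟨LH.Omega_open k _, LH.Omega_connected k _ hq,
    fun p h1 h2 => LH.Omega_right k _ hq p h1 (by linarith),
    MD.Fx M (fun _ => 1), (LH.Fx_diff k M hM _ hS _ (differentiable_const _)).mono hsub,
    fun z h1 h2 => ?_, fun K hK hK2 => ?_⟩⟩
  · exact MD.FM_eq k M z h1 h2
  · exact LH.Fx_poly k M hM _ hS MD.PJ _ MD.PJ_bound K hK2
      (fun p hp => LH.Omega_sub k _ hq (hK hp))
  · have h := MD.Fx_eq k M (fun _ => 1) z h1 h2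
    rw [mul_one] at h
    exact h
  · exact LH.Fx_poly k M hM _ hS (fun _ => 1) 0 (fun z => by simp) K hK2
      (fun p hp => LH.Omega_sub k _ hq (hK hp))

theorem result :
    -- the functions `L(s, χ_d)` continue to `Re s > 1/2`
    (∀ d, IsFund d → 1 < d → ∃ f, IsL d f) ∧
    -- the central point is in the closure of `Ω_{k,m}` for `k ≤ 2m`
    (∀ k m : ℕ, 1 ≤ m → k ≤ 2 * m →
      ((fun _ => 1 / 2, 1) : (Fin k → ℝ) × ℝ) ∈ closure (Omega k m)) ∧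
    -- unconditional: the domain `Ω_{k,2}`
    (∀ k M : ℕ, 1 ≤ M → Extends (F (k := k) M) (Omega k 2) ∧ Extends (F₀ (k := k) M) (Omega k 2)) ∧
    ∀ Λ : ℕ → ℂ → ℂ, (∀ d, IsFund d → 1 < d → IsL d (Λ d)) →
      -- the domain `Ω_{k,m}` and the moment of order `2m`
      (∀ m : ℕ, 1 ≤ m →
        [∃ k : ℕ, 2 * m ≤ k ∧ Reaches k 1,
         MomentBound Λ m,
         ∀ k M : ℕ, 1 ≤ M →
           Extends (F (k := k) M) (Omega k m) ∧ Extends (F₀ (k := k) M) (Omega k m)].TFAE) ∧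
      -- all `m` together
      [∀ n : ℕ, ∃ k : ℕ, n ≤ k ∧ Reaches k 1,
       Lindelof Λ,
       ∀ k M : ℕ, 1 ≤ M → Reaches k M].TFAE := by
  classical
  have hcl : ∀ k m : ℕ, 1 ≤ m → k ≤ 2 * m →
      ((fun _ => 1 / 2, 1) : (Fin k → ℝ) × ℝ) ∈ closure (Omega k m) := by
    intro k m hm hk
    rw [Omega_eq]
    exact LH.Omega_closure k (2 * m) (by omega) hk
  refine ⟨fun d hd h1 => ⟨MD.Ld d, MD.Ld_diff hd h1, fun s hs => MD.Ld_eq d hs⟩, hcl,
    ext_of_mom 2 (by norm_num) LH.mom_two, ?_⟩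
  intro Λ hΛ
  have hL : ∀ (d : ℕ) (s : ℂ), IsFund d → 1 < d → 1 / 2 < s.re → Λ d s = MD.Ld d s := by
    intro d s hd h1 hs
    obtain ⟨e2, e3⟩ := hΛ d hd h1
    refine SM.L_unique e2 (MD.Ld_diff hd h1) (fun z hz => ?_) s hs
    rw [e3 z hz, MD.Ld_eq d hz]
    rfl
  have hMo : ∀ m, MomentBound Λ m ↔ LH.Mom m := by
    intro m
    have key : ∀ (X : ℕ) (s : ℂ), 1 / 2 < s.re →
        ∑ d ∈ (Finset.Icc 2 X).filter IsFund, ‖Λ d s‖ ^ (2 * m) =
        ∑ d ∈ (Finset.Icc 2 X).filter MD.IsFund, ‖MD.Ld d s‖ ^ (2 * m) := by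
      intro X s hs
      refine Finset.sum_congr ?_ fun d hd => ?_
      · ext d
        simp only [Finset.mem_filter]
        exact Iff.rfl
      · rw [Finset.mem_filter, Finset.mem_Icc] at hd
        rw [hL d s hd.2 (by omega) hs]
    constructor
    · intro h ε B hε
      obtain ⟨C, A, h1⟩ := h ε B hε
      refine ⟨C, A, fun X s hX hs1 hs2 => ?_⟩
      have h2 := h1 X s hX hs1 hs2
      have h3 := key X s (by linarith)
      rw [← h3]
      exact h2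
    · intro h ε B hε
      obtain ⟨C, A, h1⟩ := h ε B hε
      refine ⟨C, A, fun X s hX hs1 hs2 => ?_⟩
      have h2 := h1 X s hX hs1 hs2
      have h3 := key X s (by linarith)
      rw [← h3] at h2
      exact h2
  have hLi : Lindelof Λ ↔ LH.Lind := by
    constructor
    · intro h ε B hε
      obtain ⟨C, A, h1⟩ := h ε B hε
      refine ⟨C, A, fun d s hd hd1 hs1 hs2 => ?_⟩
      rw [← hL d s hd hd1 (by linarith)]
      exact h1 d s hd hd1 hs1 hs2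
    · intro h ε B hε
      obtain ⟨C, A, h1⟩ := h ε B hε
      refine ⟨C, A, fun d s hd hd1 hs1 hs2 => ?_⟩
      rw [hL d s hd hd1 (by linarith)]
      exact h1 d s hd hd1 hs1 hs2
  have h12 : ∀ m k : ℕ, 2 * m ≤ k → Reaches k 1 → LH.Mom m := by
    rintro m k hk ⟨U, ⟨hU, hUc, hR, G, hd, heq, hb⟩, hcl⟩
    exact LH.mom_of_ext k m hk (LH.boch _) U hU hUc hR G hd heq hb hcl
  have h23 : ∀ m, 1 ≤ m → LH.Mom m → ∀ k M : ℕ, 1 ≤ M → k ≤ 2 * m → Reaches k M :=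
    fun m hm h k M hM hk => ⟨Omega k m, (ext_of_mom m hm h k M hM).1, hcl k m hm hk⟩
  refine ⟨fun m hm => ?_, ?_⟩
  · tfae_have 1 → 2 := fun ⟨k, hk, h⟩ => (hMo m).2 (h12 m k hk h)
    tfae_have 2 → 3 := fun h k M hM => ext_of_mom m hm ((hMo m).1 h) k M hM
    tfae_have 3 → 1 := fun h => ⟨2 * m, le_rfl, Omega (2 * m) m, (h (2 * m) 1 le_rfl).1,
      hcl (2 * m) m hm le_rfl⟩
    tfae_finish
  · tfae_have 1 → 2 := fun h => hLi.2 (LH.lind_iff.2 fun m _ => by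
      obtain ⟨k, hk, h1⟩ := h (2 * m)
      exact h12 m k hk h1)
    tfae_have 2 → 3 := fun h k M hM => by
      have h1 := LH.lind_iff.1 (hLi.1 h) (k + 1) (by omega)
      exact h23 (k + 1) (by omega) h1 k M hM (by omega)
    tfae_have 3 → 1 := fun h n => ⟨n, le_rfl, h n 1 le_rfl⟩
    tfae_finish

end Pool.Agent.Results.MP_fed7ff_nt.LindelofOnAverage
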