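import Mathlib
import Pool.Agent.W5h55.MO.Un3

/-!
# The continuation of the multiple Dirichlet series of quadratic `L`-functions is equivalent to the
asymptotic formula for the shifted moments on the critical line, and to its continuation to one
point of a tube domain beyond a half-space

The question Q1 of the problem is `∀ k M, 1 ≤ k → 1 ≤ M → Q1 k M` below.

A point `(w; s_1, …, s_k)` is a function `z : Fin (k + 1) → ℂ` with `w = z 0`, `s_j = z j.succ`.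
-/

set_option autoImplicit false

namespace Pool.Agent.Results.MP_fed7ff_nt.MomentCriterion

open Pool.Agent.W5h55

/-- positive fundamental discriminants (`1` included) -/
def IsFund (d : ℕ) : Prop := (d % 4 = 1 ∧ Squarefree d) ∨
  ∃ m, d = 4 * m ∧ Squarefree m ∧ (m % 4 = 2 ∨ m % 4 = 3)

/-- the Kronecker symbol `χ_d(n) = (d | n)`, for a positive fundamental discriminant `d` and
`n ≥ 1`: it is `(n | d)` if `d` is odd (then `d ≡ 1 mod 4`); if `d` is even, it is the Jacobi symbol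
`(d | n)` for odd `n` and `0` for even `n` -/
def chi (d n : ℕ) : ℤ :=
  if Odd d then jacobiSym n d else if Odd n then jacobiSym d n else 0

/-- `L(s, χ_d)` (used for `Re s > 1`) -/
noncomputable def L (d : ℕ) (s : ℂ) : ℂ := ∑' n : ℕ, ((chi d n : ℤ) : ℂ) * (n : ℂ) ^ (-s)

/-- the multiple Dirichlet series `A_M` at the point `z = (w; s_1, …, s_k)` -/
noncomputable def A {k : ℕ} (M : ℕ) (z : Fin (k + 1) → ℂ) : ℂ :=
  open Classical in ∑' d : ℕ, if IsFund d then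
    ((chi d M : ℤ) : ℂ) * (d : ℂ) ^ (-z 0) * ∏ j : Fin k, L d (z j.succ) else 0

/-- the product of `σ_J(w) - 1`, `σ_J(w) = w - |J|/2 + ∑_{j ∈ J} s_j`, over all subsets `J` -/
noncomputable def pol {k : ℕ} (z : Fin (k + 1) → ℂ) : ℂ :=
  ∏ J : Finset (Fin k), (z 0 - (J.card : ℂ) / 2 + ∑ j ∈ J, z j.succ - 1)

/-- the function `F_M` -/
noncomputable def F {k : ℕ} (M : ℕ) (z : Fin (k + 1) → ℂ) : ℂ :=
  (A M z - ∏ j : Fin k, riemannZeta (z j.succ)) * pol z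

/-- the function `f`, considered on the region where all coordinates have real part `> 1`, extends
holomorphically to the tube domain over `U`, with polynomial bounds in vertical strips -/
def Extends {k : ℕ} (f : (Fin (k + 1) → ℂ) → ℂ) (U : Set (Fin (k + 1) → ℝ)) : Prop :=
  IsOpen U ∧ IsConnected U ∧ (∀ p : Fin (k + 1) → ℝ, (∀ i, 1 < p i) → p ∈ U) ∧
  ∃ G : (Fin (k + 1) → ℂ) → ℂ, DifferentiableOn ℂ G {z | (fun i => (z i).re) ∈ U} ∧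
    (∀ z : Fin (k + 1) → ℂ, (∀ i, 1 < (z i).re) → G z = f z) ∧
    ∀ K ⊆ U, IsCompact K → ∃ (C : ℝ) (N : ℕ), ∀ z : Fin (k + 1) → ℂ, (fun i => (z i).re) ∈ K →
      ‖G z‖ ≤ C * (1 + ‖fun i => (z i).im‖) ^ N

/-- the real point `(ω; 1/2, …, 1/2)` -/
noncomputable def crit (k : ℕ) (ω : ℝ) : Fin (k + 1) → ℝ := Fin.cons ω (fun _ => 1 / 2)

/-- the number `ω + (1/2) ∑_j (σ_j - 1/2)`, at the real point `p = (ω; σ_1, …, σ_k)` -/
noncomputable def cen {k : ℕ} (p : Fin (k + 1) → ℝ) : ℝ :=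
  p 0 + (∑ j : Fin k, (p j.succ - 1 / 2)) / 2

/-- Q1 for `k` and `M`: `F_M` extends to a tube domain which contains `(1; 1/2, …, 1/2)` -/
def Q1 (k M : ℕ) : Prop := ∃ U, Extends (F (k := k) M) U ∧ crit k 1 ∈ U

/-- the functional equation on real parts: `(ω; σ)` goes to
`(ω + σ_j - 1/2; σ_1, …, 1 - σ_j, …, σ_k)` -/
noncomputable def refl {k : ℕ} (j : Fin k) (p : Fin (k + 1) → ℝ) : Fin (k + 1) → ℝ :=
  Fin.cons (p 0 + p j.succ - 1 / 2) (fun i => if i = j then 1 - p j.succ else p i.succ)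

/-- `Λ d` is the entire continuation of `L(s, χ_d)`, for every fundamental discriminant `d > 1` -/
def IsCont (Λ : ℕ → ℂ → ℂ) : Prop := ∀ d : ℕ, IsFund d → 1 < d →
  Differentiable ℂ (Λ d) ∧ ∀ s : ℂ, 1 < s.re → Λ d s = L d s

/-- the one-variable series `∑_{d > 1} χ_d(M) d^{-w} ∏_j L(σ_j + i t_j, χ_d)` -/
noncomputable def fibre {k : ℕ} (Λ : ℕ → ℂ → ℂ) (M : ℕ) (σ t : Fin k → ℝ) (w : ℂ) : ℂ :=
  open Classical in ∑' d : ℕ, if IsFund d ∧ 1 < d then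
    ((chi d M : ℤ) : ℂ) * (d : ℂ) ^ (-w) * ∏ j : Fin k, Λ d ((σ j : ℂ) + t j * Complex.I) else 0

/-- for almost all `t`, the function `w ↦ F_M(w; σ + i t)`, given by the series `fibre` for
`Re w > k + 1`, continues holomorphically to `Re w > c - δ`, for one `δ > 0`, and is bounded by
`C (1 + |t| + |w|)^N` there -/
def Fib {k : ℕ} (Λ : ℕ → ℂ → ℂ) (M : ℕ) (σ : Fin k → ℝ) (c : ℝ) : Prop :=
  ∃ δ > 0, ∃ (C : ℝ) (N : ℕ) (f : (Fin k → ℝ) → ℂ → ℂ), ∀ᵐ t : Fin k → ℝ,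
    DifferentiableOn ℂ (f t) {w | c - δ < w.re} ∧
    (∀ w : ℂ, (k : ℝ) + 1 < w.re → f t w = fibre Λ M σ t w *
      pol (Fin.cons w (fun j => (σ j : ℂ) + t j * Complex.I) : Fin (k + 1) → ℂ)) ∧
    ∀ w : ℂ, c - δ < w.re → ‖f t w‖ ≤ C * (1 + ‖t‖ + ‖w‖) ^ N

/-- the weight function `g_v(x) = x^{-iv} exp(-(log x)²)` -/
noncomputable def gw (v x : ℝ) : ℂ :=
  (x : ℂ) ^ (-((v : ℂ) * Complex.I)) * (Real.exp (-(Real.log x) ^ 2) : ℂ)

/-- the smoothed shifted moment `∑_{d > 1} χ_d(M) ∏_j L(σ_j + i t_j, χ_d) g_v(d / X)` -/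
noncomputable def moment {k : ℕ} (Λ : ℕ → ℂ → ℂ) (M : ℕ) (σ t : Fin k → ℝ) (v X : ℝ) : ℂ :=
  open Classical in ∑' d : ℕ, if IsFund d ∧ 1 < d then
    ((chi d M : ℤ) : ℂ) * (∏ j : Fin k, Λ d ((σ j : ℂ) + t j * Complex.I)) * gw v (d / X) else 0

/-- the asymptotic formula: for almost all `t` there are numbers `R_J` such that the moment at
`σ + i t` is the sum over `J` of `R_J ĝ_v(a_J) X^{a_J}`, `a_J = 1 + |J|/2 - ∑_{j ∈ J} (σ_j + i t_j)`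
(`ĝ` is the Mellin transform), with an error `≤ C (1 + |t| + |v|)^N X^{c - δ}` for all real `v` and
`X ≥ 1`; the constants `δ > 0`, `C`, `N` do not depend on `t` -/
def Moments {k : ℕ} (Λ : ℕ → ℂ → ℂ) (M : ℕ) (σ : Fin k → ℝ) (c : ℝ) : Prop :=
  ∃ δ > 0, ∃ (C : ℝ) (N : ℕ), ∀ᵐ t : Fin k → ℝ, ∃ R : Finset (Fin k) → ℂ, ∀ v X : ℝ, 1 ≤ X →
    ‖moment Λ M σ t v X - ∑ J : Finset (Fin k),
      R J * mellin (gw v) (1 + (J.card : ℂ) / 2 - ∑ j ∈ J, ((σ j : ℂ) + t j * Complex.I)) *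
        (X : ℂ) ^ (1 + (J.card : ℂ) / 2 - ∑ j ∈ J, ((σ j : ℂ) + t j * Complex.I))‖ ≤
      C * (1 + ‖t‖ + |v|) ^ N * X ^ (c - δ)

/-- the shifted moment with a sharp cutoff, `∑_{1 < d ≤ X} χ_d(M) ∏_j L(σ_j + i t_j, χ_d)` -/
noncomputable def sharpMoment {k : ℕ} (Λ : ℕ → ℂ → ℂ) (M : ℕ) (σ t : Fin k → ℝ) (X : ℝ) : ℂ :=
  open Classical in ∑ d ∈ Finset.Icc 1 ⌊X⌋₊, if IsFund d ∧ 1 < d then
    ((chi d M : ℤ) : ℂ) * ∏ j : Fin k, Λ d ((σ j : ℂ) + t j * Complex.I) else 0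

/-- the asymptotic formula with a power saving for the sharp cutoff: for almost all `t` there are
numbers `R_J` with error `≤ C (1 + |t|)^N X^{c - δ}` for all `X ≥ 1`; the constants `δ > 0`, `C`,
`N` do not depend on `t` -/
def SharpMoments {k : ℕ} (Λ : ℕ → ℂ → ℂ) (M : ℕ) (σ : Fin k → ℝ) (c : ℝ) : Prop :=
  ∃ δ > 0, ∃ (C : ℝ) (N : ℕ), ∀ᵐ t : Fin k → ℝ, ∃ R : Finset (Fin k) → ℂ, ∀ X : ℝ, 1 ≤ X →
    ‖sharpMoment Λ M σ t X - ∑ J : Finset (Fin k),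
      R J * (X : ℂ) ^ (1 + (J.card : ℂ) / 2 - ∑ j ∈ J, ((σ j : ℂ) + t j * Complex.I))‖ ≤
      C * (1 + ‖t‖) ^ N * X ^ (c - δ)

/-- the same for all `M ≥ 1` and all `t` for which the sums `∑_{j ∈ J} t_j` are distinct, with an
error `≤ C (M (1 + |t|))^N X^{c - δ}`; `δ`, `C`, `N` do not depend on `M` and `t` -/
def UniformMoments {k : ℕ} (Λ : ℕ → ℂ → ℂ) (σ : Fin k → ℝ) (c : ℝ) : Prop :=
  ∃ δ > 0, ∃ (C : ℝ) (N : ℕ), ∀ M : ℕ, 1 ≤ M → ∀ t : Fin k → ℝ,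
    Function.Injective (fun J : Finset (Fin k) => ∑ j ∈ J, t j) → ∃ R : Finset (Fin k) → ℂ,
    ∀ X : ℝ, 1 ≤ X → ‖sharpMoment Λ M σ t X - ∑ J : Finset (Fin k),
      R J * (X : ℂ) ^ (1 + (J.card : ℂ) / 2 - ∑ j ∈ J, ((σ j : ℂ) + t j * Complex.I))‖ ≤
      C * (M * (1 + ‖t‖)) ^ N * X ^ (c - δ)

theorem result :
    (∃ Λ : ℕ → ℂ → ℂ, IsCont Λ) ∧
    ∀ Λ : ℕ → ℂ → ℂ, IsCont Λ →
      -- the conjecture Q1 and the asymptotic formula for the shifted moments of all orders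
      [∀ k M : ℕ, 1 ≤ k → 1 ≤ M → Q1 k M,
       ∀ n : ℕ, ∃ k : ℕ, n ≤ k ∧ SharpMoments (k := k) Λ 1 (fun _ => 1 / 2) 1,
       ∀ k : ℕ, UniformMoments (k := k) Λ (fun _ => 1 / 2) 1].TFAE ∧
      -- the same for one `k` and `M`
      ∀ k M : ℕ,
        (Q1 k M ↔ ∃ U, Extends (F (k := k) M) U ∧ ∃ p ∈ U, cen p ≤ 1) ∧
        (Q1 k M ↔ Fib Λ M (fun _ : Fin k => 1 / 2) 1) ∧
        (Q1 k M ↔ Moments Λ M (fun _ : Fin k => 1 / 2) 1) ∧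
        (∀ σ : Fin k → ℝ, (∀ j, 0 < σ j) → (Fib Λ M σ (1 - (∑ j, (σ j - 1 / 2)) / 2) ∨
          Moments Λ M σ (1 - (∑ j, (σ j - 1 / 2)) / 2) ∨
          SharpMoments Λ M σ (1 - (∑ j, (σ j - 1 / 2)) / 2)) → Q1 k M) ∧
        ∃ D : Set (Fin (k + 1) → ℝ), Extends (F (k := k) M) D ∧ Convex ℝ D ∧
          (∀ U, Extends (F (k := k) M) U → U ⊆ D) ∧
          (∀ p ∈ D, ∀ j : Fin k, 0 < p j.succ → p j.succ < 1 → refl j p ∈ D) ∧
          (∀ p ∈ D, crit k (cen p) ∈ D) ∧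
          (∀ σ : Fin k → ℝ, (∀ j, 0 < σ j) → ∀ c : ℝ,
            ((Fin.cons c σ : Fin (k + 1) → ℝ) ∈ D ↔ Fib Λ M σ c)) ∧
          ∀ c : ℝ, c ≤ 1 → (crit k c ∈ D ↔ Moments Λ M (fun _ : Fin k => 1 / 2) c) :=
  ⟨(MO.final4 0 0).1, fun Λ hΛ => ⟨MO.global7 hΛ, fun k M => (MO.final4 k M).2 Λ hΛ⟩⟩

end Pool.Agent.Results.MP_fed7ff_nt.MomentCriterion
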