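import Mathlib
import Pool.Agent.W5h65.SM.P6

/-!
# Asymptotics with a power saving for the twisted shifted moments of all orders `k` of the quadratic
`L`-functions, in the region `∑ max(0, 1 - Re s_j) < 2`, `Re s_j > 1/2`
-/

set_option autoImplicit false

namespace Pool.Agent.Results.MP_fed7ff_nt.ShiftedMoments

open Pool.Agent.W5h65

/-- positive fundamental discriminants (`1` included) -/
def IsFund (d : ℕ) : Prop := (d % 4 = 1 ∧ Squarefree d) ∨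
  ∃ m, d = 4 * m ∧ Squarefree m ∧ (m % 4 = 2 ∨ m % 4 = 3)

/-- the Kronecker symbol `χ_d(n) = (d | n)`, for a positive fundamental discriminant `d` and
`n ≥ 1`: it is `(n | d)` if `d` is odd (then `d ≡ 1 mod 4`); if `d` is even, it is the Jacobi symbol
`(d | n)` for odd `n` and `0` for even `n` -/
def chi (d n : ℕ) : ℤ :=
  if Odd d then jacobiSym n d else if Odd n then jacobiSym d n else 0

/-- `f` is the function `L(s, χ_d)` on the half plane `Re s > 1/2`: the analytic continuation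
of the Dirichlet series `∑ χ_d(n) n^{-s}` -/
def IsL (d : ℕ) (f : ℂ → ℂ) : Prop :=
  DifferentiableOn ℂ f {s : ℂ | 1 / 2 < s.re} ∧
  ∀ s : ℂ, 1 < s.re → f s = ∑' n : ℕ, ((chi d n : ℤ) : ℂ) * (n : ℂ) ^ (-s)

/-- the smooth twisted shifted moment `∑* g(d / X) χ_d(M) ∏_j L(s_j, χ_d)` over the fundamental
discriminants `d > 1` -/
noncomputable def Moment {k : ℕ} (L : ℕ → ℂ → ℂ) (M : ℕ) (g : ℝ → ℂ) (s : Fin k → ℂ) (X : ℝ) : ℂ :=
  open Classical in ∑' d : ℕ, if IsFund d ∧ 1 < d then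
    g (d / X) * (((chi d M : ℤ) : ℂ) * ∏ j, L d (s j)) else 0

/-- `a(n) = ∏_{p | n} p/(p+1)` -/
noncomputable def a (n : ℕ) : ℂ := ∏ p ∈ n.primeFactors, ((p : ℂ) / (p + 1))

/-- the part of `∑_{M n_1 ⋯ n_k = □} a(M n_1 ⋯ n_k) ∏_j n_j^{-s_j}` with `n_1 ⋯ n_k = N` -/
noncomputable def term {k : ℕ} (M : ℕ) (s : Fin k → ℂ) (N : ℕ) : ℂ :=
  open Classical in if 1 ≤ N ∧ IsSquare (M * N) then
    a (M * N) * ∑ n ∈ Nat.finMulAntidiag k N, ∏ j, (n j : ℂ) ^ (-s j) else 0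

/-- `T_M(s) = (1 / (2 ζ(2))) ∑_{M n_1 ⋯ n_k = □} a(M n_1 ⋯ n_k) ∏_j n_j^{-s_j}` -/
noncomputable def T {k : ℕ} (M : ℕ) (s : Fin k → ℂ) : ℂ :=
  1 / (2 * riemannZeta 2) * ∑' N : ℕ, term M s N

theorem result (k M : ℕ) (hM : 1 ≤ M) :
    (∀ d, IsFund d → 1 < d → ∃ f, IsL d f) ∧
    (∀ s : Fin k → ℂ, (∀ j, 1 / 2 < (s j).re) → Summable (term M s)) ∧
    ∀ L : ℕ → ℂ → ℂ, (∀ d, IsFund d → 1 < d → IsL d (L d)) →
    ∀ (g : ℝ → ℂ) (u v : ℝ), ContDiff ℝ ((⊤ : ℕ∞) : WithTop ℕ∞) g → 0 < u →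
      (∀ x, g x ≠ 0 → u ≤ x ∧ x ≤ v) →
    ∀ (σ : Fin k → ℝ) (ω B : ℝ), 1 / 2 < ω → ω ≤ 1 → (∀ j, 3 / 2 - ω < σ j) →
      ∑ j, max 0 (1 - σ j) < 4 * ω - 2 →
    ∃ (C : ℝ) (A : ℕ), ∀ (s : Fin k → ℂ) (X : ℝ), (∀ j, σ j ≤ (s j).re ∧ (s j).re ≤ B) → 1 ≤ X →
      ‖Moment L M g s X - T M s * (X * ∫ x : ℝ, g x)‖ ≤ C * (1 + ‖s‖) ^ A * X ^ ω := by
  classical
  refine ⟨fun d hd h1 => ⟨MD.Ld d, MD.Ld_diff hd h1, fun s hs => MD.Ld_eq d hs⟩, ?_, ?_⟩
  · intro s hs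
    obtain ⟨ε, hε, h⟩ : ∃ ε > 0, ∀ j, 1 / 2 + ε ≤ (s j).re := by
      have h1 : ∀ᶠ ε : ℝ in nhdsWithin 0 (Set.Ioi 0), ∀ j, 1 / 2 + ε ≤ (s j).re := by
        rw [Filter.eventually_all]
        intro j
        have : ∀ᶠ ε : ℝ in nhdsWithin 0 (Set.Ioi 0), ε < (s j).re - 1 / 2 :=
          (eventually_lt_nhds (by linarith [hs j])).filter_mono nhdsWithin_le_nhds
        filter_upwards [this] with ε hε
        linarith
      obtain ⟨ε, h2, h3⟩ := (h1.and self_mem_nhdsWithin).exists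
      exact ⟨ε, h3, h2⟩
    obtain ⟨w, hw, h2⟩ := MD.TT_term k ε hε M hM
    have h3 : Summable (fun N => MD.cF (M * N) * MD.af s N) :=
      Summable.of_norm_bounded hw (fun N => h2 s N h)
    have h4 : (2 * riemannZeta 2) ≠ 0 :=
      mul_ne_zero two_ne_zero (riemannZeta_ne_zero_of_one_le_re (by norm_num))
    have h5 : term M s = fun N => (2 * riemannZeta 2) * (MD.cF (M * N) * MD.af s N) := by
      funext N
      rw [SM.tm_eq hM s N, ← mul_assoc, mul_one_div_cancel h4, one_mul]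
      rfl
    rw [h5]
    exact h3.mul_left _
  · intro L hL g u v hg hu hsupp σ ω B hω hω1 hσ hsum
    have hsupp' : ∀ x, g x ≠ 0 → u ≤ x ∧ x ≤ max u v := fun x hx =>
      ⟨(hsupp x hx).1, (hsupp x hx).2.trans (le_max_right _ _)⟩
    obtain ⟨φ, h1, h2, h3⟩ := SM.fourier_rep g hg u (max u v) hu hsupp'
    have hmin : min 1 (2 * ω - 1) = 2 * ω - 1 := min_eq_right (by linarith)
    have hp : (σ, ω) ∈ MD.Omega k := by
      refine ⟨hω, fun j => ?_, ?_⟩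
      · show 1 - min 1 (2 * ω - 1) / 2 < σ j
        rw [hmin]
        linarith [hσ j]
      · show ∑ j, max 0 (1 - σ j) < min 1 (2 * ω - 1) + (2 * ω - 1)
        rw [hmin]
        linarith
    obtain ⟨C, A, hC, h⟩ := SM.main k M hM (σ, ω) hp B ⟨h1, h2, h3⟩ hg hu (le_max_left _ _) hsupp'
    refine ⟨C, A, fun s X hs hX => ?_⟩
    have h4 := h s X (fun j => (hs j).1) (fun j => (hs j).2) hX
    have hT : T M s = MD.TT M s := (SM.TT_eq hM s).symm
    have hMo : Moment L M g s X = SM.SS M g s X := by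
      unfold Moment SM.SS
      refine tsum_congr fun d => ?_
      unfold MD.gd
      by_cases hd : IsFund d ∧ 1 < d
      · have hd' : MD.IsFund d ∧ 1 < d := hd
        rw [if_pos hd, if_pos hd', neg_zero, Complex.cpow_zero, mul_one]
        have e1 : ∏ j, L d (s j) = ∏ j, MD.Ld d (s j) := by
          refine Finset.prod_congr rfl fun j _ => ?_
          obtain ⟨e2, e3⟩ := hL d hd.1 hd.2
          refine SM.L_unique e2 (MD.Ld_diff hd'.1 hd'.2) (fun z hz => ?_) (s j)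
            (by linarith [hσ j, (hs j).1])
          rw [e3 z hz, MD.Ld_eq d hz]
          rfl
        rw [e1]
        rfl
      · have hd' : ¬ (MD.IsFund d ∧ 1 < d) := hd
        rw [if_neg hd, if_neg hd', mul_zero]
    rw [hMo, hT]
    exact h4

end Pool.Agent.Results.MP_fed7ff_nt.ShiftedMoments
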