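import Pool.Agent.W5h63.MD.HullF

set_option autoImplicit false

/-!
# Q1 for `k + 1` implies Q1 for `k` and all multiples of `M`, uniformly

`A_M(s_1, …, s_k; w) = ∑* χ_d(M) d^{-w} ∏ L(s_j, χ_d)` over the positive fundamental discriminants,
`F_M` is `A_M - ∏ ζ(s_j)` times the product of the polar factors `σ_J(w) - 1`, and `Q1C k M` is the
statement of the problem for `k` and `M`: `F_M` extends from its region of absolute convergence to a
holomorphic function on a tube domain (over a connected open set of real parts) which contains
`(1/2, …, 1/2; 1)`, with polynomial bounds in vertical strips. `Q1 k M` is the same statement with a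
convex set of real parts.

The theorem: the two statements are equivalent (Bochner's tube theorem with polynomial bounds). If Q1 is
true for `k + 1` variables `s_j` and for `M`, then it is true for `k` variables and for all multiples
`M n` of `M`, in one common convex tube domain and with bounds which are polynomial in `n`. So the
conjecture for all `k` and `M` follows from its untwisted case `M = 1` for infinitely many `k`, and it
is equivalent to its uniform form.

Proof. For `Re z > 1` the function `A_M(s, z; w)` is the Dirichlet series `∑ A_{M n}(s; w) n^{-z}` in the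
additional variable `z`. The coefficients are recovered by an integral over the line `Re z = 2` against
`n^z K(z)`, where `K` is the Fourier transform of a smooth function with a small support. Because of the
polynomial bounds the integral converges on the slice `Re z = 2` of the tube domain, and by convexity
this slice contains `(1/2, …, 1/2; 1)`. On it the polar factors which contain `z` have no zeros.
For the step from connected to convex sets `F_M` is divided by a power of `∏ (z_j + R)`; the quotient
is the Laplace transform of a function which does not depend on the vertical slice, and so the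
transform converges over the convex hull.
-/

namespace Pool.Agent.Results.MP_fed7ff_nt.UntwistedSuffices

open Pool.Agent.W5h63.MD

/-- (1) In Q1 connected tube domains can be replaced by convex ones. (2) Q1 for `k + 1` and `M` implies
Q1 for `k` and all `M n`, with one convex tube domain for all `n` and with bounds polynomial in `n`.
(3) Q1 (for all `k, M ≥ 1`) is equivalent to Q1 for `M = 1` and infinitely many `k`. (4) It is
equivalent to its form which is uniform in `M`. -/
theorem result :
    (∀ k M : ℕ, Q1C k M ↔ Q1 k M) ∧
    (∀ k M : ℕ, 1 ≤ M → Q1C (k + 1) M → Q1Unif k M) ∧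
    ((∀ k M : ℕ, 1 ≤ k → 1 ≤ M → Q1C k M) ↔ ∀ B : ℕ, ∃ k, B ≤ k ∧ Q1C k 1) ∧
    ((∀ k M : ℕ, 1 ≤ k → 1 ≤ M → Q1C k M) ↔ ∀ k : ℕ, 1 ≤ k → Q1Unif k 1) := by
  have h1 : ∀ k M : ℕ, 1 ≤ M → Q1C (k + 1) M → Q1Unif k M := fun k M hM h =>
    main hM (Q1_of_Q1C h)
  have h2 : (∀ B : ℕ, ∃ k, B ≤ k ∧ Q1C k 1) → ∀ k : ℕ, Q1Unif k 1 := by
    intro h k
    obtain ⟨k', hk', hQ⟩ := h (k + 1)
    obtain ⟨j, rfl⟩ := Nat.exists_eq_add_of_le hk'
    exact main le_rfl (Q1_down le_rfl j (Q1_of_Q1C hQ))
  have h3 : (∀ k : ℕ, 1 ≤ k → Q1Unif k 1) → ∀ k M : ℕ, 1 ≤ k → 1 ≤ M → Q1C k M := by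
    intro h k M hk hM
    have := Q1C_of_Q1 (Q1_of_unif hM (h k hk))
    rwa [one_mul] at this
  refine ⟨fun k M => ⟨Q1_of_Q1C, Q1C_of_Q1⟩, h1,
    ⟨fun h B => ⟨B + 1, by omega, h (B + 1) 1 (by omega) le_rfl⟩,
    fun h k M hk hM => h3 (fun k _ => h2 h k) k M hk hM⟩,
    ⟨fun h k hk => h1 k 1 le_rfl (h (k + 1) 1 (by omega) le_rfl), h3⟩⟩

end Pool.Agent.Results.MP_fed7ff_nt.UntwistedSuffices
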